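import Pool.Agent.Lib.MP_4fe900_gt.Book
import Pool.Agent.Lib.MP_4fe900_gt.Up
import Pool.Agent.Lib.MP_4fe900_gt.In
import Pool.Agent.Lib.MP_4fe900_gt.Ext
import Pool.Agent.Lib.MP_4fe900_gt.G
import Pool.Agent.Lib.MP_4fe900_gt.Exact
import Pool.Agent.Lib.MP_4fe900_gt.TL.Top

set_option autoImplicit false

open Pool.Agent.Lib.MP_4fe900_gt

namespace Pool.Agent.Results.MP_4fe900_gt.ExactOrder

/-- For all large `n` the least order of an intrinsically `n`-linked digraph is `3 n`, and it is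
attained by a tournament. -/
theorem result : ∃ n₀ : ℕ, ∀ n : ℕ, n₀ ≤ n →
    (∃ (E : Type) (_ : Finite E) (s t : E → Fin (3 * n)),
      DG.Tour s t ∧ ∀ Φ : DG.Emb s t, Φ.Linked n) ∧
    ∀ (N : ℕ) (E : Type) [Finite E] (s t : E → Fin N), (∀ e, s e ≠ t e) →
      (∀ Φ : DG.Emb s t, Φ.Tame → Φ.Linked n) → 3 * n ≤ N := by
  obtain ⟨n₀, h⟩ := exact gS
  refine ⟨n₀ + 2, fun n hn => ⟨?_, fun N E _ s t h1 h2 => DG.low s t h1 (by omega) h2⟩⟩
  have ha : ∀ a b, tri n a b → ¬tri n b a := by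
    rintro ⟨i, a⟩ ⟨j, b⟩
    simp only [tri]
    revert i j
    decide
  obtain ⟨q, hq, hI⟩ := ext _ (tri n) n (3 * n) ha (by simp)
    (inS Pool.Agent.TL.top _ _ n (h n (by omega)))
  exact ⟨_, inferInstance, _, _, up hq hI⟩

end Pool.Agent.Results.MP_4fe900_gt.ExactOrder
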