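import Pool.Agent.Lib.MP_4fe900_gt.Sc.C

set_option autoImplicit false

open Pool.Agent.Lib.MP_4fe900_gt

namespace Pool.Agent.Results.MP_4fe900_gt.ScoreGap

/-- A tournament, with the vertices listed by increasing out-degree, in which one out-degree differs
from its position by at least `320 n + 1120` is intrinsically `n`-linked. -/
theorem result (n N : ℕ) (r : Fin N → Fin N → Prop) (hT : Tour r) (s : Fin N → ℕ)
    (hs : ∀ i, s i = Set.ncard {j | r i j}) (hm : Monotone s) (i : Fin N)
    (h : i.val + (320 * n + 1120) ≤ s i ∨ s i + (320 * n + 1120) ≤ i.val) : InL r n := by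
  obtain rfl : s = Sc.od r := funext fun i => by
    rw [hs, Sc.od, ← Set.ncard_coe_finset, Finset.coe_filter_univ]
  exact Sc.gap hT hm n i (by simpa only [add_assoc] using h)

end Pool.Agent.Results.MP_4fe900_gt.ScoreGap
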