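import Pool.Agent.Lib.MP_4fe900_gt.Sc.F

set_option autoImplicit false

open Pool.Agent.Lib.MP_4fe900_gt

namespace Pool.Agent.Results.MP_4fe900_gt.ScoreSequences

/-- The tournament `r` on `N` vertices has the nondecreasing sequence `s` of out-degrees. -/
def Rep {N : ℕ} (s : Fin N → ℕ) (r : Fin N → Fin N → Prop) : Prop :=
  Tour r ∧ Monotone s ∧ ∀ i, s i = Set.ncard {j | r i j}

/-- For all but a small fraction of the score sequences of length `N`, every tournament with that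
score sequence is intrinsically `m`-linked for every `m ≤ n`. -/
theorem result (N n : ℕ) :
    (Set.ncard {s : Fin N → ℕ | ∃ r, Rep s r ∧ ∃ m ≤ n, ¬InL r m} : ℝ) ≤
      4 * (320 * n + 1121) ^ 2 * (N + 1) ^ 8 * Real.exp (-(2 * N / (320 * n + 1121) ^ 2)) *
        Set.ncard {s : Fin N → ℕ | ∃ r, Rep s r} := by
  have e : ∀ (r : Fin N → Fin N → Prop) i, Sc.od r i = Set.ncard {j | r i j} := fun r i => by
    rw [Sc.od, ← Set.ncard_coe_finset, Finset.coe_filter_univ]
  have f1 : {s : Fin N → ℕ | ∃ r, Rep s r}.Finite :=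
    (Set.finite_range (Sc.od : (Fin N → Fin N → Prop) → _)).subset fun s ⟨r, h⟩ =>
      ⟨r, funext fun i => (e r i).trans (h.2.2 i).symm⟩
  have f2 : {s : Fin N → ℕ | ∃ r, Rep s r ∧ ∃ m ≤ n, ¬InL r m}.Finite :=
    f1.subset fun s ⟨r, h, _⟩ => ⟨r, h⟩
  rw [Set.ncard_eq_toFinset_card _ f1, Set.ncard_eq_toFinset_card _ f2]
  refine Sc.few N n _ _ (fun r h1 h2 => f1.mem_toFinset.2 ⟨r, h1, h2, e r⟩) fun s hs => ?_
  obtain ⟨r, h, h'⟩ := f2.mem_toFinset.1 hs
  exact ⟨h.2.1, r, h.1, funext fun i => (e r i).trans (h.2.2 i).symm, h'⟩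

end Pool.Agent.Results.MP_4fe900_gt.ScoreSequences
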