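import Pool.Agent.Lib.MP_4fe900_gt.SmallOrder

set_option autoImplicit false

open Pool.Agent.Lib.MP_4fe900_gt

namespace Pool.Agent.Results.MP_4fe900_gt.SmallTournaments

/-- For every `n ≥ 3` some tournament on `6 n - 3 - (n mod 2)` vertices is intrinsically
`n`-linked. -/
theorem result (n : ℕ) (hn : 3 ≤ n) :
    ∃ (E : Type) (_ : Finite E) (s t : E → Fin (6 * n - 3 - n % 2)),
      DG.Tour s t ∧ ∀ Φ : DG.Emb s t, Φ.Linked n :=
  SmallOrder.result n hn

end Pool.Agent.Results.MP_4fe900_gt.SmallTournaments
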